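import Mathlib
import Pool.Agent.K3h28.Sponge.Main

/-!
# MP_ecd4e3_gt, Q1: length-increasing embeddings of open sets into the unit ball

For every `n ≥ 1` there is `ε_n > 0` such that every open set `U` of `ℝ^n` of volume at most `ε_n`
admits a length-increasing embedding into the closed unit ball: a homeomorphism onto its image such
that the image of every rectifiable curve is at least as long as the curve. One can take `ε_1 = 2`
(which is optimal) and, for `n ≥ 2`, `ε_n = ∞`: no bound for the volume is needed.

For `n ≥ 2` the embedding is the restriction of an embedding of `ℝ^n` into the unit ball which maps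
EVERY nonconstant curve of finite length to a curve of infinite length: an infinite composition of
shears `x_j ↦ x_j + A cos (π N x_i)` with rapidly decreasing amplitudes `A` and rapidly increasing
products `A N` (the coordinate `x_i` runs through all coordinates infinitely often), followed by a
diffeomorphism of `ℝ^n` with the open unit ball.
-/

set_option autoImplicit false

open Set MeasureTheory
open scoped ENNReal

namespace Pool.Agent.Results.MP_ecd4e3_gt.LengthIncreasingEmbeddings

/-- `f` restricts to a length-increasing embedding of `U` into the closed unit ball: it is a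
homeomorphism of `U` onto its image, the image lies in the closed unit ball, and for every
rectifiable curve `γ : [a, b] → U` the curve `f ∘ γ` is at least as long as `γ`. -/
def IsLengthIncreasingEmbedding {n : ℕ} (U : Set (EuclideanSpace ℝ (Fin n)))
    (f : EuclideanSpace ℝ (Fin n) → EuclideanSpace ℝ (Fin n)) : Prop :=
  Topology.IsEmbedding (fun x : U => f x) ∧
  (∀ x ∈ U, f x ∈ Metric.closedBall (0 : EuclideanSpace ℝ (Fin n)) 1) ∧
  ∀ (a b : ℝ) (γ : ℝ → EuclideanSpace ℝ (Fin n)), ContinuousOn γ (Icc a b) →
    (∀ t ∈ Icc a b, γ t ∈ U) → eVariationOn γ (Icc a b) ≠ ∞ →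
    eVariationOn γ (Icc a b) ≤ eVariationOn (fun t => f (γ t)) (Icc a b)

/-- **Main result.** -/
theorem result (n : ℕ) (hn : 1 ≤ n) :
    ∃ ε : ℝ≥0∞, 0 < ε ∧ (n = 1 → ε = 2) ∧ (2 ≤ n → ε = ∞) ∧
      ∀ U : Set (EuclideanSpace ℝ (Fin n)), IsOpen U → volume U ≤ ε →
        ∃ f : EuclideanSpace ℝ (Fin n) → EuclideanSpace ℝ (Fin n),
          IsLengthIncreasingEmbedding U f := by
  rcases Nat.lt_or_ge n 2 with h | h
  · obtain rfl : n = 1 := by omega
    refine ⟨2, by norm_num, fun _ => rfl, fun h => absurd h (by norm_num), fun U hU hvol => ?_⟩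
    obtain ⟨f, h1, h2, h3⟩ := Pool.Agent.K3h28.Sponge.dim_one U hU hvol
    exact ⟨f, h1, fun x _ => by rw [mem_closedBall_zero_iff]; exact h2 x,
      fun a b γ hγ hγU _ => h3 a b γ hγ hγU⟩
  · refine ⟨∞, by norm_num, fun h1 => absurd h (by omega), fun _ => rfl, fun U _ _ => ?_⟩
    obtain ⟨f, h1, h2, h3⟩ := Pool.Agent.K3h28.Sponge.dim_ge_two n h
    refine ⟨f, h1.comp Topology.IsEmbedding.subtypeVal,
      fun x _ => by rw [mem_closedBall_zero_iff]; exact (h2 x).le, fun a b γ hγ _ hrect => ?_⟩
    by_cases hc : ∃ s ∈ Icc a b, ∃ t ∈ Icc a b, γ s ≠ γ t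
    · rw [h3 a b γ hγ hrect hc]
      exact le_top
    · push Not at hc
      have : eVariationOn γ (Icc a b) = 0 := by
        rw [eVariationOn.eq_zero_iff]
        intro x hx y hy
        rw [hc x hx y hy, edist_self]
      rw [this]
      exact bot_le

end Pool.Agent.Results.MP_ecd4e3_gt.LengthIncreasingEmbeddings
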